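import Pool.Agent.U26.SG.Stm
import Mathlib.MeasureTheory.Function.ConditionalExpectation.PullOut

/-!
# Project SG, package COND: both signs, conditionally
-/

set_option autoImplicit false
open MeasureTheory Filter Topology
open scoped ENNReal

namespace Pool.Agent.U364.SG

theorem s3 : √(3 : ℝ) ^ 2 = 3 := Real.sq_sqrt (by norm_num)

theorem s3pos : 0 < √(3 : ℝ) := Real.sqrt_pos.2 (by norm_num)

theorem cst_eq : (2 * √3 - 3) / 3 = 4 / (9 + 6 * √3) * (3 / 4) := by
  have h := s3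
  have h0 := s3pos
  rw [div_mul_div_comm, div_eq_div_iff (by norm_num) (by positivity)]
  nlinarith

/-- the polynomial below the indicator function of the positive reals -/
theorem core (t : ℝ) : 4 / (9 + 6 * √3) * (2 * t + 3 * t ^ 2 - t ^ 4) ≤ if 0 < t then 1 else 0 := by
  have hs := s3
  have hs0 := s3pos
  have K0 : 0 < 4 / (9 + 6 * √3) := by positivity
  have KG : 4 / (9 + 6 * √3) * ((9 + 6 * √3) / 4) = 1 := by field_simp
  by_cases h : 0 < t
  · rw [if_pos h]
    have e3 : (9 + 6 * √3) / 4 - (2 * t + 3 * t ^ 2 - t ^ 4) =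
        (t - (1 + √3) / 2) ^ 2 * (t ^ 2 + (1 + √3) * t + 3 * √3 / 2) := by
      linear_combination ((3 / 4) * t ^ 2 + (3 / 4 - √3 / 4) * t - 3 / 4 - 3 / 8 * √3) * hs
    have e4 : 0 ≤ (t - (1 + √3) / 2) ^ 2 * (t ^ 2 + (1 + √3) * t + 3 * √3 / 2) := by positivity
    have e5 : 2 * t + 3 * t ^ 2 - t ^ 4 ≤ (9 + 6 * √3) / 4 := by linarith
    calc 4 / (9 + 6 * √3) * (2 * t + 3 * t ^ 2 - t ^ 4)
        ≤ 4 / (9 + 6 * √3) * ((9 + 6 * √3) / 4) := by gcongr
      _ = 1 := KG
  · rw [if_neg h]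
    have t0 : t ≤ 0 := not_lt.1 h
    have e3 : 2 * t + 3 * t ^ 2 - t ^ 4 = t * ((t + 1) ^ 2 * (2 - t)) := by ring
    rw [e3]
    have : t * ((t + 1) ^ 2 * (2 - t)) ≤ 0 :=
      mul_nonpos_of_nonpos_of_nonneg t0 (mul_nonneg (sq_nonneg _) (by linarith))
    nlinarith

section

variable {Z : Type} {m m0 : MeasurableSpace Z} {P : @Measure Z m0} [IsProbabilityMeasure P]

/-- pulling out a bounded `m`-measurable factor -/
theorem pull (hm : m ≤ m0) {w g : Z → ℝ} (hw : StronglyMeasurable[m] w) {C : ℝ}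
    (hC : ∀ z, |w z| ≤ C) (hg : Integrable g P) :
    Integrable (fun z => w z * g z) P ∧ Integrable (fun z => w z * (P[g | m]) z) P ∧
      ∫ z, w z * g z ∂P = ∫ z, w z * (P[g | m]) z ∂P := by
  have h1 : Integrable (fun z => w z * g z) P :=
    hg.bdd_mul (hw.mono hm).aestronglyMeasurable (Eventually.of_forall hC)
  have h2 : Integrable (fun z => w z * (P[g | m]) z) P :=
    integrable_condExp.bdd_mul (hw.mono hm).aestronglyMeasurable (Eventually.of_forall hC)
  refine ⟨h1, h2, ?_⟩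
  have h3 : P[w * g | m] =ᵐ[P] w * P[g | m] := condExp_mul_of_stronglyMeasurable_left hw h1 hg
  calc ∫ z, w z * g z ∂P = ∫ z, (P[w * g | m]) z ∂P := (integral_condExp hm).symm
    _ = ∫ z, w z * (P[g | m]) z ∂P := integral_congr_ae h3

theorem pow_int {X : Z → ℝ} (hX : Measurable[m0] X) (h4 : Integrable (fun z => X z ^ 4) P) {k : ℕ}
    (hk : k ≤ 4) : Integrable (fun z => X z ^ k) P := by
  refine Integrable.mono' (h4.add (integrable_const 1)) (hX.pow_const k).aestronglyMeasurable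
    (Filter.Eventually.of_forall fun z => ?_)
  rw [Real.norm_eq_abs, abs_pow, Pi.add_apply]
  have e : X z ^ 4 = |X z| ^ 4 := (Even.pow_abs (by decide) _).symm
  rw [e]
  have h0 := abs_nonneg (X z)
  rcases le_total |X z| 1 with h | h
  · have := pow_le_one₀ (n := k) h0 h
    have := pow_nonneg h0 4
    linarith
  · have := pow_le_pow_right₀ h hk
    linarith

/-- the bound on one set `B` on which the conditional variance is bounded above and below -/
theorem onB (hm : m ≤ m0) {X : Z → ℝ} (hX : Measurable[m0] X) (h4 : Integrable (fun z => X z ^ 4) P)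
    (h1 : P[X | m] =ᵐ[P] (fun _ => (0 : ℝ)))
    (h : P[fun z => X z ^ 4 | m] ≤ᵐ[P] fun z => 3 * (P[fun z => X z ^ 2 | m]) z ^ 2)
    {A : Set Z} (hA : MeasurableSet[m] A) (N : ℕ) :
    (2 * √3 - 3) / 3 * P.real (A ∩ {z | 1 / ((N : ℝ) + 1) ≤ (P[fun z => X z ^ 2 | m]) z ∧
      (P[fun z => X z ^ 2 | m]) z ≤ (N : ℝ) + 1}) ≤ P.real (A ∩ {z | 0 < X z}) := by
  set v : Z → ℝ := P[fun z => X z ^ 2 | m] with hv
  have hvm : StronglyMeasurable[m] v := stronglyMeasurable_condExp
  set B : Set Z := A ∩ {z | 1 / ((N : ℝ) + 1) ≤ v z ∧ v z ≤ (N : ℝ) + 1} with hB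
  have hBm : MeasurableSet[m] B := by
    refine hA.inter (MeasurableSet.inter ?_ ?_)
    · exact measurableSet_le measurable_const hvm.measurable
    · exact measurableSet_le hvm.measurable measurable_const
  have hBm0 : MeasurableSet[m0] B := hm _ hBm
  have hN : (0 : ℝ) < (N : ℝ) + 1 := by positivity
  have hvpos : ∀ z ∈ B, 0 < v z := fun z hz => lt_of_lt_of_le (by positivity) hz.2.1
  set w : Z → ℝ := B.indicator (fun z => (√(2 * v z))⁻¹) with hw
  have hwm : StronglyMeasurable[m] w := by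
    refine StronglyMeasurable.indicator ?_ hBm
    refine Measurable.stronglyMeasurable ?_
    exact ((hvm.measurable.const_mul 2).sqrt).inv
  -- squares
  have hw2 : ∀ z ∈ B, w z ^ 2 * v z = 1 / 2 := by
    intro z hz
    have h5 := hvpos z hz
    rw [hw, Set.indicator_of_mem hz, inv_pow, Real.sq_sqrt (by positivity)]
    field_simp
  have hw0 : ∀ z, z ∉ B → w z = 0 := fun z hz => Set.indicator_of_notMem hz _
  have hwn : ∀ z, 0 ≤ w z := fun z =>
    Set.indicator_nonneg (fun z _ => inv_nonneg.2 (Real.sqrt_nonneg _)) z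
  have hwp : ∀ z ∈ B, 0 < w z := by
    intro z hz
    have h5 := hvpos z hz
    rw [hw, Set.indicator_of_mem hz]
    positivity
  have hwle : ∀ z, w z ^ 2 ≤ (N : ℝ) + 1 := by
    intro z
    by_cases hz : z ∈ B
    · have h5 := hw2 z hz
      have h6 := hz.2.1
      have h7 : w z ^ 2 * (1 / ((N : ℝ) + 1)) ≤ 1 / 2 := by
        rw [← h5]
        exact mul_le_mul_of_nonneg_left h6 (sq_nonneg _)
      rw [mul_one_div, div_le_iff₀ hN] at h7
      linarith
    · rw [hw0 z hz, zero_pow two_ne_zero]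
      exact hN.le
  have hb1 : ∀ z, |w z| ≤ (N : ℝ) + 1 := by
    intro z
    rw [abs_of_nonneg (hwn z)]
    have h5 := hwle z
    have h6 := hwn z
    nlinarith
  have hb2 : ∀ z, |w z ^ 2| ≤ (N : ℝ) + 1 := fun z => by
    rw [abs_of_nonneg (sq_nonneg _)]
    exact hwle z
  have hb4 : ∀ z, |w z ^ 4| ≤ ((N : ℝ) + 1) ^ 2 := fun z => by
    have e : w z ^ 4 = (w z ^ 2) ^ 2 := by ring
    rw [e, abs_of_nonneg (sq_nonneg _)]
    exact pow_le_pow_left₀ (sq_nonneg _) (hwle z) 2
  have i1 : Integrable X P := by simpa using pow_int (k := 1) hX h4 (by norm_num)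
  have i2 : Integrable (fun z => X z ^ 2) P := pow_int (k := 2) hX h4 (by norm_num)
  obtain ⟨a1, -, a3⟩ := pull hm hwm hb1 i1
  have hwm2 : StronglyMeasurable[m] (fun z => w z ^ 2) := hwm.pow 2
  have hwm4 : StronglyMeasurable[m] (fun z => w z ^ 4) := hwm.pow 4
  obtain ⟨b1, -, b3⟩ := pull hm hwm2 hb2 i2
  obtain ⟨c1, c2, c3⟩ := pull hm hwm4 hb4 h4
  have ea : ∫ z, w z * X z ∂P = 0 := by
    rw [a3]
    refine (integral_congr_ae (h1.mono fun z hz => ?_)).trans (integral_zero _ _)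
    show w z * (P[X | m]) z = 0
    rw [hz, mul_zero]
  have hind : ∀ r : ℝ, ∫ z, B.indicator (fun _ => r) z ∂P = r * P.real B := fun r => by
    rw [integral_indicator_const _ hBm0, smul_eq_mul, mul_comm]
  have eb : ∫ z, w z ^ 2 * X z ^ 2 ∂P = 1 / 2 * P.real B := by
    rw [← hind]
    refine b3.trans (integral_congr_ae (Eventually.of_forall fun z => ?_))
    show w z ^ 2 * v z = B.indicator (fun _ => (1 / 2 : ℝ)) z
    by_cases hz : z ∈ B
    · rw [Set.indicator_of_mem hz, hw2 z hz]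
    · rw [Set.indicator_of_notMem hz, hw0 z hz]
      ring
  have ec : ∫ z, w z ^ 4 * X z ^ 4 ∂P ≤ 3 / 4 * P.real B := by
    rw [← hind]
    refine c3.le.trans (integral_mono_ae c2 ((integrable_const _).indicator hBm0) ?_)
    refine h.mono fun z hz => ?_
    show w z ^ 4 * (P[fun z => X z ^ 4 | m]) z ≤ B.indicator (fun _ => (3 / 4 : ℝ)) z
    by_cases hzB : z ∈ B
    · rw [Set.indicator_of_mem hzB]
      have e : w z ^ 4 * (3 * v z ^ 2) = 3 / 4 := by
        have e1 : w z ^ 4 * (3 * v z ^ 2) = 3 * (w z ^ 2 * v z) ^ 2 := by ring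
        rw [e1, hw2 z hzB]
        norm_num
      rw [← e]
      exact mul_le_mul_of_nonneg_left hz (by positivity)
    · rw [Set.indicator_of_notMem hzB, hw0 z hzB]
      norm_num
  -- the pointwise inequality, integrated
  set K : ℝ := 4 / (9 + 6 * √3) with hK
  have K0 : 0 < K := by
    have := s3pos
    positivity
  have a1' : Integrable (fun z => 2 * (w z * X z)) P := a1.const_mul 2
  have b1' : Integrable (fun z => 3 * (w z ^ 2 * X z ^ 2)) P := b1.const_mul 3
  have ab : Integrable (fun z => 2 * (w z * X z) + 3 * (w z ^ 2 * X z ^ 2)) P := a1'.add b1'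
  have hq : Integrable (fun z => K * (2 * (w z * X z) + 3 * (w z ^ 2 * X z ^ 2) - w z ^ 4 * X z ^ 4)) P :=
    (ab.sub c1).const_mul _
  have hXpos : MeasurableSet[m0] {z | 0 < X z} := measurableSet_lt measurable_const hX
  have key : ∫ z, K * (2 * (w z * X z) + 3 * (w z ^ 2 * X z ^ 2) - w z ^ 4 * X z ^ 4) ∂P ≤
      P.real (B ∩ {z | 0 < X z}) := by
    have e1 : P.real (B ∩ {z | 0 < X z}) = ∫ z, (B ∩ {z | 0 < X z}).indicator (fun _ => (1 : ℝ)) z ∂P := by
      rw [integral_indicator_const _ (hBm0.inter hXpos), smul_eq_mul, mul_one]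
    rw [e1]
    refine integral_mono hq ((integrable_const _).indicator (hBm0.inter hXpos)) fun z => ?_
    show K * (2 * (w z * X z) + 3 * (w z ^ 2 * X z ^ 2) - w z ^ 4 * X z ^ 4) ≤
      (B ∩ {z | 0 < X z}).indicator (fun _ => (1 : ℝ)) z
    by_cases hz : z ∈ B
    · have e2 : 2 * (w z * X z) + 3 * (w z ^ 2 * X z ^ 2) - w z ^ 4 * X z ^ 4 =
          2 * (w z * X z) + 3 * (w z * X z) ^ 2 - (w z * X z) ^ 4 := by ring
      rw [e2]
      refine (core (w z * X z)).trans ?_
      have h5 := hwp z hz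
      by_cases h6 : 0 < X z
      · have h8 : z ∈ B ∩ {z | 0 < X z} := ⟨hz, h6⟩
        rw [if_pos (mul_pos h5 h6), Set.indicator_of_mem h8]
      · rw [if_neg (fun h7 => h6 ((mul_pos_iff_of_pos_left h5).1 h7)),
          Set.indicator_of_notMem (fun h7 => h6 h7.2)]
    · rw [hw0 z hz, Set.indicator_of_notMem (fun h7 => hz h7.1)]
      simp
  have e3 : ∫ z, K * (2 * (w z * X z) + 3 * (w z ^ 2 * X z ^ 2) - w z ^ 4 * X z ^ 4) ∂P =
      K * (2 * 0 + 3 * (1 / 2 * P.real B) - ∫ z, w z ^ 4 * X z ^ 4 ∂P) := by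
    rw [integral_const_mul, integral_sub ab c1, integral_add a1' b1', integral_const_mul,
      integral_const_mul, ea, eb]
  rw [e3] at key
  have e4 : P.real (B ∩ {z | 0 < X z}) ≤ P.real (A ∩ {z | 0 < X z}) :=
    measureReal_mono (Set.inter_subset_inter_left _ Set.inter_subset_left) (measure_ne_top _ _)
  refine le_trans ?_ (key.trans e4)
  rw [cst_eq, ← hK]
  have e5 : K * (3 / 4) * P.real B = K * (3 / 4 * P.real B) := by ring
  rw [e5]
  refine mul_le_mul_of_nonneg_left ?_ K0.le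
  linarith

end

theorem t_COND : Pool.Agent.U26.SG.S_COND := by
  intro Z m0 m hm P hP X hX h4 h1 h A hA
  set v : Z → ℝ := P[fun z => X z ^ 2 | m] with hv
  set c : ℝ := (2 * √3 - 3) / 3 with hc
  have hmono : Monotone (fun N : ℕ => A ∩ {z | 1 / ((N : ℝ) + 1) ≤ v z ∧ v z ≤ (N : ℝ) + 1}) := by
    intro N N' hNN z hz
    have h5 : (N : ℝ) ≤ N' := by exact_mod_cast hNN
    refine ⟨hz.1, ?_, ?_⟩
    · refine le_trans ?_ hz.2.1
      exact one_div_le_one_div_of_le (by positivity) (by linarith)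
    · have := hz.2.2
      linarith
  have hU : (⋃ N : ℕ, A ∩ {z | 1 / ((N : ℝ) + 1) ≤ v z ∧ v z ≤ (N : ℝ) + 1}) = A ∩ {z | 0 < v z} := by
    ext z
    simp only [Set.mem_iUnion, Set.mem_inter_iff, Set.mem_ofPred_eq]
    constructor
    · rintro ⟨N, h5, h6, h7⟩
      exact ⟨h5, lt_of_lt_of_le (by positivity) h6⟩
    · rintro ⟨h5, h6⟩
      obtain ⟨N, hN⟩ := exists_nat_ge (max (v z) (1 / v z))
      refine ⟨N, h5, ?_, ?_⟩
      · have h7 : 1 / v z ≤ (N : ℝ) + 1 := by
          have := (le_max_right _ _).trans hN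
          linarith
        rw [div_le_iff₀ h6] at h7
        rw [div_le_iff₀ (by positivity)]
        linarith
      · have := (le_max_left _ _).trans hN
        linarith
  have ht := tendsto_measure_iUnion_atTop (μ := P) hmono
  rw [hU] at ht
  have ht2 : Tendsto (fun N : ℕ => P.real (A ∩ {z | 1 / ((N : ℝ) + 1) ≤ v z ∧ v z ≤ (N : ℝ) + 1})) atTop
      (𝓝 (P.real (A ∩ {z | 0 < v z}))) :=
    (ENNReal.tendsto_toReal (measure_ne_top _ _)).comp ht
  have ht3 := ht2.const_mul c
  exact le_of_tendsto' ht3 fun N => onB hm hX h4 h1 h hA N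

end Pool.Agent.U364.SG
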